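import Pool.Agent.Helper37.SN.Stmts

set_option autoImplicit false

namespace Pool.Agent.Helper37.SN

open MeasureTheory Finset
open scoped ENNReal Classical

theorem st_BMP (hrep : ST_REP) : ST_BMP := by
  intro W σ x hσ hW hW0
  have h8 : (8 : ℝ) ≤ 2 ^ σ := by
    calc (8 : ℝ) = 2 ^ 3 := by norm_num
      _ ≤ 2 ^ σ := pow_le_pow_right₀ (by norm_num) hσ
  refine ⟨?_, ?_⟩
  · have h1 : Continuous (AddCircle.liftIoc (1 : ℝ) (-(1 / 2)) (fun y : ℝ => W (2 ^ σ * y))) := by
      refine AddCircle.liftIoc_continuous ?_ ?_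
      · have e1 : W (2 ^ σ * (-(1 / 2))) = 0 := by
          apply hW0
          rw [abs_mul, abs_neg, abs_of_nonneg (by positivity : (0 : ℝ) ≤ 2 ^ σ),
            abs_of_nonneg (by norm_num : (0 : ℝ) ≤ 1 / 2)]
          linarith
        have e2 : W (2 ^ σ * (-(1 / 2) + 1)) = 0 := by
          apply hW0
          rw [abs_mul, abs_of_nonneg (by positivity : (0 : ℝ) ≤ 2 ^ σ),
            abs_of_nonneg (by norm_num : (0 : ℝ) ≤ -(1 / 2) + 1)]
          linarith
        rw [e1, e2]
      · exact (hW.comp (continuous_const.mul continuous_id)).continuousOn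
    have h2 : bmp W σ x = fun t => AddCircle.liftIoc (1 : ℝ) (-(1 / 2))
        (fun y : ℝ => W (2 ^ σ * y)) (t - x) := by
      funext t
      rfl
    rw [h2]
    exact h1.comp (continuous_id.sub continuous_const)
  · intro t ht
    unfold bmp
    apply hW0
    rw [abs_mul, abs_of_nonneg (by positivity : (0 : ℝ) ≤ 2 ^ σ), hrep.2.1]
    rw [div_le_iff₀ (by positivity)] at ht
    linarith

end Pool.Agent.Helper37.SN
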