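import Pool.Agent.Helper37.SN.Stmts

set_option autoImplicit false

namespace Pool.Agent.Helper37.SN

open MeasureTheory Finset
open scoped ENNReal Classical

theorem st_LON (hblk : ST_BLK) : ST_LON := by
  intro A n κ u hu hA
  set A1 : Finset ℤ :=
    A.filter (fun s : ℤ => (A.filter (fun t : ℤ => s ≤ t ∧ t ≤ s + (u : ℤ))).card < κ) with hA1
  set A2 : Finset ℤ :=
    A.filter (fun s : ℤ => (A.filter (fun t : ℤ => s - (u : ℤ) ≤ t ∧ t ≤ s)).card < κ) with hA2
  have hsub : Lon A κ u ⊆ A1 ∪ A2 := by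
    intro s hs
    unfold Lon at hs
    rw [mem_filter] at hs
    rcases hs.2 with h | h
    · exact mem_union_left _ (mem_filter.2 ⟨hs.1, h⟩)
    · exact mem_union_right _ (mem_filter.2 ⟨hs.1, h⟩)
  have h1 : A1.card ≤ κ * ((n + 1) / u + 1) := by
    refine hblk A1 n u κ hu (fun s hs => hA s (mem_filter.1 hs).1) (fun s hs => ?_)
    refine le_trans (card_le_card (fun t ht => ?_)) (mem_filter.1 hs).2.le
    rw [mem_filter] at ht ⊢
    exact ⟨(mem_filter.1 ht.1).1, ht.2.1, ht.2.2.le⟩
  have hinj : Function.Injective (fun s : ℤ => (n : ℤ) - s) := by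
    intro a b hab
    simp only at hab
    omega
  have h2 : A2.card ≤ κ * ((n + 1) / u + 1) := by
    rw [← card_image_of_injective A2 hinj]
    refine hblk _ n u κ hu (fun s hs => ?_) (fun s hs => ?_)
    · obtain ⟨t, ht, rfl⟩ := mem_image.1 hs
      have := hA t (mem_filter.1 ht).1
      omega
    · obtain ⟨s0, hs0, rfl⟩ := mem_image.1 hs
      refine le_trans ?_ (mem_filter.1 hs0).2.le
      rw [← card_image_of_injective (A.filter (fun t : ℤ => s0 - (u : ℤ) ≤ t ∧ t ≤ s0)) hinj]
      refine card_le_card (fun t ht => ?_)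
      rw [mem_filter] at ht
      obtain ⟨t0, ht0, rfl⟩ := mem_image.1 ht.1
      have h3 := ht.2
      refine mem_image.2 ⟨t0, mem_filter.2 ⟨(mem_filter.1 ht0).1, by omega, by omega⟩, rfl⟩
  calc (Lon A κ u).card ≤ (A1 ∪ A2).card := card_le_card hsub
    _ ≤ A1.card + A2.card := card_union_le _ _
    _ ≤ κ * ((n + 1) / u + 1) + κ * ((n + 1) / u + 1) := add_le_add h1 h2
    _ = 2 * κ * ((n + 1) / u + 1) := by ring

end Pool.Agent.Helper37.SN
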